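import Mathlib
import Pool.Agent.Helper50.PicFinal

/-!
# The discrete Picard theorem for parabolic complexes of bounded degree

We prove Q1 in full: a discrete entire function on a parabolic combinatorial open disc of bounded
degree omits at most one point of the plane.

The definitions are in `Pool.Agent.Helper50.PicDefs`.

Idea of the proof. Suppose that a packing `P` omits `0` and `1`. With `μ = Im (conj z dz)/(1+|z|²)`
(a potential of the area form of the sphere), the integral of `μ/π` over the arcs of the circles in
the corners of the faces is corrected by a coboundary `Ψ(vw) - Ψ(vu)`, where `Ψ` is a multivalued
function on `ℂ \ {0,1}`, Lipschitz for the spherical metric at `0` and `1` and equal to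
`-arg z / π` up to constants near infinity (it is defined with the help of the tree of half-planes,
and is well defined on the edges of `K` because `K` is simply connected). The corner terms `X` then
satisfy: the sum of `X` over the corners at `v` is at least `2 ℓ(v)²`, where `ℓ(v)` is the size of
the circle of `v` on the sphere; `|X| ≤ 135 ℓ(v)`; and the sum of `X` over the three corners of a
face is not positive. Testing with the squares of finitely supported functions of small energy,
which exist since `K` is parabolic and of bounded degree, gives a contradiction.
-/

namespace Pool.Agent.Results.MP_a36f15_an.DiscretePicard

open Pool.Agent.Helper50.Pic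

/-- **Discrete Picard theorem.** Let `K` be a parabolic combinatorial open disc of bounded degree
and let `P` be a circle packing for `K` (branching allowed), that is, the image packing of a
discrete entire function `f : P_K → P`. Then `f` omits at most one point of the plane: two points
outside the carrier of `P` are equal. -/
theorem result {V : Type*} (K : Cplx V) (hK : K.IsOpenDisc) (hb : K.BoundedDegree)
    (hp : K.Parabolic) (P : Packing K) (w₁ w₂ : ℂ) (h₁ : w₁ ∉ P.carr) (h₂ : w₂ ∉ P.carr) :
    w₁ = w₂ :=
  picard K hK hb hp P w₁ w₂ h₁ h₂

end Pool.Agent.Results.MP_a36f15_an.DiscretePicard
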